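import Pool.Agent.X65.Pos.Entropy

/-!
Posets with many linear extensions have nearly balanced pairs; greedy sorting.
-/

set_option autoImplicit false
set_option linter.unusedSectionVars false

open Finset

namespace Pool.Agent.X65.Pos

open Pool.Agent.H13R3.WB

lemma balance_le_one_sub {P : Type} [Fintype P] [PartialOrder P] {x y : P} {η : ℝ}
    (h : balance P - η ≤ min (prob P x y) (prob P y x)) (hxy : x ≠ y) :
    prob P x y ≤ 1 - balance P + η := by
  have h1 : balance P - η ≤ prob P y x := h.trans (min_le_right _ _)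
  have h2 : prob P x y + prob P y x = 1 := by
    unfold prob
    rw [← add_div]
    have h0 : 0 < ext P := ext_pos
    unfold ext at h0
    have h3 : (Nat.card {f : P ≃ Fin (Fintype.card P) // Monotone f ∧ f x < f y} : ℝ) +
        Nat.card {f : P ≃ Fin (Fintype.card P) // Monotone f ∧ f y < f x} =
        Nat.card {f : P ≃ Fin (Fintype.card P) // Monotone f} := by
      classical
      rw [Nat.card_eq_fintype_card, Nat.card_eq_fintype_card, Nat.card_eq_fintype_card,
        Fintype.card_subtype, Fintype.card_subtype, Fintype.card_subtype, ← Nat.cast_add,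
        ← card_union_of_disjoint]
      · congr 2
        ext f
        simp only [mem_filter, mem_univ, true_and, mem_union]
        constructor
        · rintro (h | h) <;> exact h.1
        · intro h
          rcases lt_trichotomy (f x) (f y) with h4 | h4 | h4
          · exact Or.inl ⟨h, h4⟩
          · exact absurd (f.injective h4) hxy
          · exact Or.inr ⟨h, h4⟩
      · rw [disjoint_left]
        intro f hf hf'
        simp only [mem_filter, mem_univ, true_and] at hf hf'
        exact lt_asymm hf.2 hf'.2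
    rw [h3]
    exact div_self (by exact_mod_cast h0.ne')
  linarith

/-- `o'` is the partial order obtained from `o` by adding the relation `x < y`, where `x` and `y`
are incomparable in `o`. -/
def AddRel {P : Type} (o o' : PartialOrder P) (x y : P) : Prop :=
  ¬ o.le x y ∧ ¬ o.le y x ∧ ∀ a b, o'.le a b ↔ o.le a b ∨ (o.le a x ∧ o.le y b)

/-- One comparison of a strategy that is greedy up to the error `η`: the pair `x`, `y` is balanced
up to `η` as well as the best pair of `o`, and the answer is `x < y`. -/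
def GreedyStep {P : Type} [Fintype P] (η : ℝ) (o o' : PartialOrder P) : Prop :=
  ∃ x y : P, AddRel o o' x y ∧ @balance P _ o - η ≤ min (@prob P _ o x y) (@prob P _ o y x)

lemma ext_step {P : Type} [Fintype P] {o o' : PartialOrder P} {x y : P} (h : AddRel o o' x y) :
    (@ext P _ o' : ℝ) = @prob P _ o x y * @ext P _ o := by
  have hne : x ≠ y := fun hxy => h.1 (hxy ▸ o.le_refl x)
  have h1 : @ext P _ o' =
      Nat.card {f : P ≃ Fin (Fintype.card P) // @Monotone P _ o.toPreorder _ f ∧ f x < f y} := by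
    unfold ext
    refine Nat.card_congr (Equiv.subtypeEquivRight fun f => ?_)
    constructor
    · intro hf
      refine ⟨fun a b hab => hf ((h.2.2 a b).2 (Or.inl hab)), ?_⟩
      have h2 : f x ≤ f y := hf ((h.2.2 x y).2 (Or.inr ⟨o.le_refl x, o.le_refl y⟩))
      exact lt_of_le_of_ne h2 (fun h3 => hne (f.injective h3))
    · rintro ⟨hf, hxy⟩ a b hab
      rcases (h.2.2 a b).1 hab with h2 | ⟨h2, h3⟩
      · exact hf h2
      · exact (hf h2).trans (hxy.le.trans (hf h3))
  have h0 : 0 < @ext P _ o := @ext_pos P _ o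
  have h0' : (0 : ℝ) < @ext P _ o := by exact_mod_cast h0
  rw [h1]
  unfold prob
  unfold ext at h0' ⊢
  rw [div_mul_cancel₀ _ h0'.ne']

lemma E_ge_one' {ε : ℝ} (hε : 0 < ε) (hε2 : ε ≤ 1 / 2) : 1 ≤ Real.log (2 / ε) ^ 3 / ε ^ 4 := by
  have h1 : 1 ≤ Real.log (2 / ε) := by
    rw [Real.le_log_iff_exp_le (by positivity)]
    have h2 : Real.exp 1 < 2.7182818286 := Real.exp_one_lt_d9
    have h3 : 4 ≤ 2 / ε := by
      rw [le_div_iff₀ hε]
      linarith
    linarith
  rw [le_div_iff₀ (by positivity)]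
  have h2 : ε ^ 4 ≤ 1 := pow_le_one₀ hε.le (by linarith)
  have h3 : 1 ≤ Real.log (2 / ε) ^ 3 := one_le_pow₀ h1
  linarith

/-- **Many linear extensions force a nearly balanced pair.** -/
theorem many_ext : ∃ B : ℝ, 0 < B ∧ ∀ ε : ℝ, 0 < ε → ε ≤ 1 / 2 →
    ∀ (P : Type) [Fintype P] [PartialOrder P],
      Real.exp (B * Real.log (2 / ε) ^ 3 / ε ^ 4 * Fintype.card P) < ext P →
      1 / 2 - ε ≤ balance P := by
  obtain ⟨B, hB, H⟩ := Pool.Agent.Y491.ID.incomparable_balance
  refine ⟨B + 1, by linarith, fun ε hε hε2 P _ _ hP => ?_⟩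
  by_contra hcon
  have hinc : ∀ x : P, (inc x : ℝ) < Real.exp (B * Real.log (2 / ε) ^ 3 / ε ^ 4) := by
    intro x
    by_contra h
    exact hcon (H ε hε hε2 P x (not_lt.1 h))
  set E := Real.log (2 / ε) ^ 3 / ε ^ 4 with hE
  have hE1 : 1 ≤ E := E_ge_one' hε hε2
  have e1 : B * Real.log (2 / ε) ^ 3 / ε ^ 4 = B * E := by rw [hE]; ring
  have e2 : (B + 1) * Real.log (2 / ε) ^ 3 / ε ^ 4 = (B + 1) * E := by rw [hE]; ring
  rw [e1] at hinc
  rw [e2] at hP
  have h1 : (ext P : ℝ) ≤ ∏ x : P, ((inc x : ℝ) + 1) := by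
    exact_mod_cast ext_le_prod (P := P)
  have h2 : ∏ x : P, ((inc x : ℝ) + 1) ≤ ∏ _x : P, Real.exp ((B + 1) * E) := by
    refine prod_le_prod (fun x _ => by positivity) fun x _ => ?_
    have h3 := hinc x
    have h4 : Real.exp ((B + 1) * E) = Real.exp (B * E) * Real.exp E := by
      rw [← Real.exp_add]; ring_nf
    have h5 : 2 ≤ Real.exp E := by
      have := Real.add_one_le_exp E
      linarith
    have h6 : 1 ≤ Real.exp (B * E) := Real.one_le_exp (by positivity)
    rw [h4]
    nlinarith
  rw [prod_const, card_univ, ← Real.exp_nat_mul] at h2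
  have h7 : (Fintype.card P : ℝ) * ((B + 1) * E) = (B + 1) * E * Fintype.card P := by ring
  rw [h7] at h2
  linarith

lemma bft {P : Type} [Fintype P] [PartialOrder P] (h : ∃ x y : P, ¬ x ≤ y ∧ ¬ y ≤ x) :
    27 / 100 ≤ balance P := by
  obtain ⟨c, hc, H⟩ := Pool.Agent.Y491.BF.beyond
  have h1 := H P h
  have h2 : √5 ≤ 2.2361 := by
    rw [Real.sqrt_le_left (by norm_num)]
    norm_num
  have h3 : (27 : ℝ) / 100 ≤ (5 - √5) / 10 := by linarith
  linarith

/-- **Greedy sorting.** -/
theorem greedy : ∃ B : ℝ, 0 < B ∧ ∀ ε : ℝ, 0 < ε → ε ≤ 1 → ∀ (P : Type) [Fintype P] (k : ℕ)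
    (o : ℕ → PartialOrder P), (∀ i < k, GreedyStep (ε / 16) (o i) (o (i + 1))) →
    (k : ℝ) ≤ (1 + ε) * Real.logb 2 (@ext P _ (o 0)) +
      B * Real.log (2 / ε) ^ 3 / ε ^ 4 * Fintype.card P := by
  obtain ⟨B, hB, H⟩ := many_ext
  refine ⟨5 * B * 8192000, by positivity, fun ε hε hε1 P _ k o ho => ?_⟩
  have hl2 : 0.6931 < Real.log 2 := lt_trans (by norm_num) Real.log_two_gt_d9
  set δ := ε / 16 with hδ
  have hδ0 : 0 < δ := by positivity
  have hδ1 : δ ≤ 1 / 2 := by rw [hδ]; linarith
  set N : ℝ := B * Real.log (2 / δ) ^ 3 / δ ^ 4 * Fintype.card P with hN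
  set a : ℝ := (1 + ε) / Real.log 2 with ha
  have ha4 : a ≤ 3 := by
    rw [ha, div_le_iff₀ (by linarith)]
    linarith
  have ha0 : 0 < a := by positivity
  have hlog2 : 1 / 2 < Real.log (2 / δ) := by
    rw [Real.lt_log_iff_exp_lt (by positivity)]
    have h1 : (4 : ℝ) ≤ 2 / δ := by
      rw [le_div_iff₀ hδ0]; linarith
    have h2 : Real.exp (1 / 2) < 4 := by
      have h3 : Real.exp (1 / 2) ≤ Real.exp 1 := Real.exp_le_exp.2 (by norm_num)
      have h4 := Real.exp_one_lt_d9
      linarith
    linarith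
  have hN0 : 0 ≤ N := by
    rw [hN]
    have : 0 < Real.log (2 / δ) := by linarith
    positivity
  let l : ℕ → ℝ := fun i => Real.log (@ext P _ (o i))
  have hlpos : ∀ i, 0 ≤ l i := fun i =>
    Real.log_nonneg (by exact_mod_cast @ext_pos P _ (o i))
  let φ : ℕ → ℝ := fun i => a * l i + (5 - a) * min (l i) N
  -- one step
  have hstep : ∀ i < k, φ (i + 1) + 1 ≤ φ i := by
    intro i hi
    obtain ⟨x, y, hxy, hbal⟩ := ho i hi
    have hne : x ≠ y := fun h => hxy.1 (h ▸ (o i).le_refl x)
    have he0 : (0 : ℝ) < @ext P _ (o i) := by exact_mod_cast @ext_pos P _ (o i)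
    have he1 : (0 : ℝ) < @ext P _ (o (i + 1)) := by exact_mod_cast @ext_pos P _ (o (i + 1))
    have hext := ext_step hxy
    have hp0 : 0 < @prob P _ (o i) x y := by
      by_contra h
      rw [not_lt] at h
      have : (@ext P _ (o (i + 1)) : ℝ) ≤ 0 := by
        rw [hext]
        exact mul_nonpos_of_nonpos_of_nonneg h he0.le
      linarith
    have hlstep : l (i + 1) = Real.log (@prob P _ (o i) x y) + l i := by
      show Real.log (@ext P _ (o (i + 1))) = _
      rw [hext, Real.log_mul hp0.ne' he0.ne']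
    have hple : @prob P _ (o i) x y ≤ 1 - @balance P _ (o i) + δ :=
      @balance_le_one_sub P _ (o i) x y δ hbal hne
    have hbft : 27 / 100 ≤ @balance P _ (o i) := @bft P _ (o i) ⟨x, y, hxy.1, hxy.2.1⟩
    have hdec : Real.log (@prob P _ (o i) x y) ≤ -(1 / 5) := by
      have h1 := Real.log_le_sub_one_of_pos hp0
      linarith
    rcases le_or_gt (l i) N with hc | hc
    · have h1 : min (l i) N = l i := min_eq_left hc
      have h2 : min (l (i + 1)) N = l (i + 1) := min_eq_left (by rw [hlstep]; linarith)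
      show a * l (i + 1) + (5 - a) * min (l (i + 1)) N + 1 ≤ a * l i + (5 - a) * min (l i) N
      rw [h1, h2]
      nlinarith
    · -- nearly balanced
      have h1 : 1 / 2 - δ ≤ @balance P _ (o i) := by
        refine @H δ hδ0 hδ1 P _ (o i) ?_
        rw [← hN]
        exact (Real.lt_log_iff_exp_lt he0).1 hc
      have h2 : @prob P _ (o i) x y ≤ 1 / 2 * (1 + 4 * δ) := by linarith
      have h3 : Real.log (@prob P _ (o i) x y) ≤ -Real.log 2 + 4 * δ := by
        have h4 := Real.log_le_log hp0 h2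
        rw [Real.log_mul (by norm_num) (by positivity)] at h4
        have h5 : Real.log (1 / 2) = -Real.log 2 := by rw [one_div, Real.log_inv]
        have h6 := Real.log_le_sub_one_of_pos (show (0 : ℝ) < 1 + 4 * δ by positivity)
        linarith
      have h4 : min (l (i + 1)) N ≤ min (l i) N :=
        min_le_min_right _ (by rw [hlstep]; linarith)
      have h5 : 1 ≤ a * (Real.log 2 - 4 * δ) := by
        have h6 : a * Real.log 2 = 1 + ε := by
          rw [ha]
          exact div_mul_cancel₀ _ (by linarith)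
        have h7 : a * (4 * δ) ≤ 3 * (ε / 4) := by
          have h8 : 4 * δ = ε / 4 := by rw [hδ]; ring
          rw [h8]
          exact mul_le_mul_of_nonneg_right ha4 (by positivity)
        have h9 : a * (Real.log 2 - 4 * δ) = 1 + ε - a * (4 * δ) := by rw [mul_sub, h6]
        rw [h9]
        linarith
      show a * l (i + 1) + (5 - a) * min (l (i + 1)) N + 1 ≤ a * l i + (5 - a) * min (l i) N
      have h6 : a * l (i + 1) + 1 ≤ a * l i := by
        rw [hlstep]
        nlinarith
      have h7 : (5 - a) * min (l (i + 1)) N ≤ (5 - a) * min (l i) N :=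
        mul_le_mul_of_nonneg_left h4 (by linarith)
      linarith
  have hsum : ∀ j ≤ k, φ j + j ≤ φ 0 := by
    intro j
    induction j with
    | zero => intro _; simp
    | succ j ih =>
      intro hj
      have h1 := ih (by omega)
      have h2 := hstep j (by omega)
      push_cast
      linarith
  have hφk : 0 ≤ φ k := by
    show 0 ≤ a * l k + (5 - a) * min (l k) N
    have h1 := hlpos k
    have h2 : 0 ≤ min (l k) N := le_min h1 hN0
    have h3 : 0 ≤ 5 - a := by linarith
    exact add_nonneg (mul_nonneg ha0.le h1) (mul_nonneg h3 h2)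
  have hfin : φ 0 ≤ a * l 0 + 5 * N := by
    show a * l 0 + (5 - a) * min (l 0) N ≤ a * l 0 + 5 * N
    have h1 : min (l 0) N ≤ N := min_le_right _ _
    have h2 : (5 - a) * min (l 0) N ≤ (5 - a) * N :=
      mul_le_mul_of_nonneg_left h1 (by linarith)
    have h3 : (5 - a) * N ≤ 5 * N := mul_le_mul_of_nonneg_right (by linarith) hN0
    linarith
  have hk := hsum k le_rfl
  have hal : a * l 0 = (1 + ε) * Real.logb 2 (@ext P _ (o 0)) := by
    show (1 + ε) / Real.log 2 * Real.log (@ext P _ (o 0)) = _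
    rw [Real.logb]
    ring
  -- the constant
  have hNle : 5 * N ≤ 5 * B * 8192000 * Real.log (2 / ε) ^ 3 / ε ^ 4 * Fintype.card P := by
    have h1 : Real.log (2 / δ) ≤ 5 * Real.log (2 / ε) := by
      have h2 : 2 / δ = 16 * (2 / ε) := by rw [hδ]; field_simp
      rw [h2, Real.log_mul (by norm_num) (by positivity)]
      have h3 : Real.log 16 = 4 * Real.log 2 := by
        rw [show (16 : ℝ) = 2 ^ 4 by norm_num, Real.log_pow]
        norm_num
      have h4 : Real.log 2 ≤ Real.log (2 / ε) :=
        Real.log_le_log (by norm_num) (by rw [le_div_iff₀ hε]; linarith)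
      rw [h3]
      linarith
    have h2 : Real.log (2 / δ) ^ 3 ≤ 125 * Real.log (2 / ε) ^ 3 := by
      calc Real.log (2 / δ) ^ 3 ≤ (5 * Real.log (2 / ε)) ^ 3 :=
            pow_le_pow_left₀ (by linarith) h1 3
        _ = 125 * Real.log (2 / ε) ^ 3 := by ring
    have h3 : δ ^ 4 = ε ^ 4 / 65536 := by rw [hδ]; ring
    have h4 : B * Real.log (2 / δ) ^ 3 / δ ^ 4 ≤
        B * 8192000 * (Real.log (2 / ε) ^ 3 / ε ^ 4) := by
      rw [h3]
      have h5 : B * Real.log (2 / δ) ^ 3 / (ε ^ 4 / 65536) =
          B * 65536 * (Real.log (2 / δ) ^ 3 / ε ^ 4) := by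
        field_simp
      rw [h5]
      have h6 : Real.log (2 / δ) ^ 3 / ε ^ 4 ≤ 125 * (Real.log (2 / ε) ^ 3 / ε ^ 4) := by
        rw [← mul_div_assoc]
        exact div_le_div_of_nonneg_right h2 (by positivity)
      have h7 : B * 65536 * (Real.log (2 / δ) ^ 3 / ε ^ 4) ≤
          B * 65536 * (125 * (Real.log (2 / ε) ^ 3 / ε ^ 4)) :=
        mul_le_mul_of_nonneg_left h6 (by positivity)
      linarith
    have h5 : N ≤ B * 8192000 * (Real.log (2 / ε) ^ 3 / ε ^ 4) * Fintype.card P := by
      rw [hN]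
      exact mul_le_mul_of_nonneg_right h4 (by positivity)
    calc 5 * N ≤ 5 * (B * 8192000 * (Real.log (2 / ε) ^ 3 / ε ^ 4) * Fintype.card P) := by linarith
      _ = _ := by ring
  rw [← hal]
  linarith

end Pool.Agent.X65.Pos
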