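import Pool.Agent.Y491.ID.Main
import Pool.Agent.Y491.BF.Final

/-!
Posets with many linear extensions, and greedy sorting.
-/

set_option autoImplicit false
set_option linter.unusedSectionVars false

open Finset

namespace Pool.Agent.X65.Pos

open Pool.Agent.H13R3.WB

/-- the number of linear extensions -/
noncomputable def ext (P : Type) [Fintype P] [PartialOrder P] : ℕ :=
  Nat.card {f : P ≃ Fin (Fintype.card P) // Monotone f}

/-- the number of elements incomparable to `x` -/
noncomputable def inc {P : Type} [Fintype P] [PartialOrder P] (x : P) : ℕ :=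
  Nat.card {y : P // ¬ x ≤ y ∧ ¬ y ≤ x}

section

variable {P : Type} [Fintype P] [PartialOrder P]

open scoped Classical in
lemma pos_eq (f : P ≃ Fin (Fintype.card P)) (hf : Monotone f) (x : P) :
    (f x : ℕ) = (univ.filter fun y : P => y < x).card +
      (univ.filter fun y : P => (¬ x ≤ y ∧ ¬ y ≤ x) ∧ f y < f x).card := by
  have h1 : (univ.filter fun y : P => f y < f x).card = (f x : ℕ) := by
    have h2 : (univ.filter fun y : P => f y < f x) =
        (univ.filter fun i : Fin (Fintype.card P) => i < f x).map f.symm.toEmbedding := by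
      ext y
      simp only [mem_filter, mem_univ, true_and, mem_map, Equiv.coe_toEmbedding]
      constructor
      · intro h
        exact ⟨f y, h, f.symm_apply_apply y⟩
      · rintro ⟨i, hi, rfl⟩
        rwa [f.apply_symm_apply]
    rw [h2, card_map]
    have h3 : (univ.filter fun i : Fin (Fintype.card P) => i < f x) = Finset.Iio (f x) := by
      ext i
      simp
    rw [h3, Fin.card_Iio]
  rw [← h1, ← card_union_of_disjoint]
  · congr 1
    ext y
    simp only [mem_filter, mem_univ, true_and, mem_union]
    constructor
    · intro h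
      by_cases h4 : x ≤ y
      · exact absurd (hf h4) (not_le.2 h)
      · by_cases h5 : y ≤ x
        · exact Or.inl (lt_of_le_of_ne h5 (fun h6 => h4 (h6 ▸ le_refl _)))
        · exact Or.inr ⟨⟨h4, h5⟩, h⟩
    · rintro (h | h)
      · exact (hf.strictMono_of_injective f.injective) h
      · exact h.2
  · rw [disjoint_left]
    intro y hy hy'
    simp only [mem_filter, mem_univ, true_and] at hy hy'
    exact hy'.1.2 hy.le

/-- the number of linear extensions is at most the product of the numbers `inc x + 1` -/
theorem ext_le_prod : ext P ≤ ∏ x : P, (inc x + 1) := by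
  classical
  have hlt : ∀ (f : P ≃ Fin (Fintype.card P)) (x : P),
      (univ.filter fun y : P => (¬ x ≤ y ∧ ¬ y ≤ x) ∧ f y < f x).card < inc x + 1 := by
    intro f x
    unfold inc
    rw [Nat.card_eq_fintype_card, Fintype.card_subtype, Nat.lt_succ_iff]
    refine card_le_card fun y hy => ?_
    rw [mem_filter] at hy ⊢
    exact ⟨mem_univ _, hy.2.1⟩
  let Φ : {f : P ≃ Fin (Fintype.card P) // Monotone f} → ∀ x : P, Fin (inc x + 1) :=
    fun f x => ⟨_, hlt f.1 x⟩
  have hinj : Function.Injective Φ := by
    intro f g h
    apply Subtype.ext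
    apply Equiv.ext
    intro x
    apply Fin.ext
    rw [pos_eq f.1 f.2 x, pos_eq g.1 g.2 x]
    congr 1
    exact congrArg Fin.val (congrFun h x)
  have h1 := Fintype.card_le_of_injective Φ hinj
  rw [Fintype.card_pi] at h1
  simp only [Fintype.card_fin] at h1
  unfold ext
  rw [Nat.card_eq_fintype_card]
  exact h1

theorem ext_pos : 0 < ext P := by
  classical
  unfold ext
  have h := Pool.Agent.TH161.KS.eN_pos P
  unfold Pool.Agent.TH161.LW.eN at h
  have h2 : ∀ f : P ≃ Fin (Fintype.card P), Monotone ⇑f ↔ StrictMono ⇑f := fun f =>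
    ⟨fun h => h.strictMono_of_injective f.injective, fun h => h.monotone⟩
  simp only [h2]
  exact h

end

end Pool.Agent.X65.Pos
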